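import Pool.Agent.H55.FFM.TE
import Pool.Agent.H18.HIT.Basic

/-!
# The Casorati determinant (row RNK)
-/

set_option autoImplicit false

open MvPolynomial
open Pool.Agent.H12.ZD (pmap v O Res DenseOrbit NoInv)
open Pool.Agent.H18.HIT
open Pool.Agent.H55.FFM

namespace Pool.Agent.H54.FFM

variable {N : ℕ} {k : Type} [Field k]

/-- the Casorati matrix -/
noncomputable def cas (G : Tup N k) {r : ℕ} (M : Fin r → Po N k) : Matrix (Fin r) (Fin r) (Po N k) :=
  Matrix.of fun i a => aeval (it G i) (M a)

theorem cas_ne (G : Tup N k) (hG : Function.Injective (aeval G : Po N k →ₐ[k] Po N k))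
    (hN : NoInv G) : ∀ (r : ℕ) (M : Fin r → Po N k), LinearIndependent k M →
      (cas G M).det ≠ 0 := by
  classical
  intro r
  induction r with
  | zero =>
    intro M _
    rw [Matrix.det_fin_zero]
    exact one_ne_zero
  | succ r ih =>
    intro M hM hdet
    have hM' : LinearIndependent k (fun a : Fin r => M a.castSucc) :=
      hM.comp _ (Fin.castSucc_injective r)
    have hC := ih _ hM'
    obtain ⟨u, hu0, hu⟩ := Matrix.exists_mulVec_eq_zero_iff.2 hdet
    have hrow : ∀ i : ℕ, i ≤ r → ∑ a : Fin r, aeval (it G i) (M a.castSucc) * u a.castSucc +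
        aeval (it G i) (M (Fin.last r)) * u (Fin.last r) = 0 := by
      intro i hi
      have h1 := congrFun hu ⟨i, Nat.lt_succ_of_le hi⟩
      unfold Matrix.mulVec dotProduct at h1
      rw [Fin.sum_univ_castSucc] at h1
      exact h1
    -- the last coefficient is not zero
    have hlast : u (Fin.last r) ≠ 0 := by
      intro h0
      apply hC
      rw [← Matrix.exists_mulVec_eq_zero_iff]
      refine ⟨fun a => u a.castSucc, ?_, ?_⟩
      · intro h1
        apply hu0
        funext a
        refine Fin.lastCases ?_ (fun a => ?_) a
        · rw [h0, Pi.zero_apply]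
        · exact congrFun h1 a
      · funext i
        have h1 := hrow i i.2.le
        rw [h0, mul_zero, add_zero] at h1
        exact h1
    -- the coefficients are constants
    have hw : ∀ a : Fin r, u (Fin.last r) * aeval G (u a.castSucc) =
        aeval G (u (Fin.last r)) * u a.castSucc := by
      have hdet' : ((cas G fun a : Fin r => M a.castSucc).map (aeval G)).det ≠ 0 := by
        have h1 := AlgHom.map_det (aeval G : Po N k →ₐ[k] Po N k)
          (cas G fun a : Fin r => M a.castSucc)
        intro h2
        apply hC
        apply hG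
        rw [map_zero, h1]
        exact h2
      by_contra hcon
      apply hdet'
      rw [← Matrix.exists_mulVec_eq_zero_iff]
      refine ⟨fun a => u (Fin.last r) * aeval G (u a.castSucc) -
        aeval G (u (Fin.last r)) * u a.castSucc, ?_, ?_⟩
      · intro h1
        apply hcon
        intro a
        exact sub_eq_zero.1 (congrFun h1 a)
      · funext i
        unfold Matrix.mulVec dotProduct
        simp only [Matrix.map_apply, cas, Matrix.of_apply, Pi.zero_apply]
        have h1 := hrow (i + 1) (by omega)
        have h2 := congrArg (aeval G : Po N k →ₐ[k] Po N k) (hrow i i.2.le)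
        rw [map_add, map_sum, map_zero, map_mul] at h2
        simp only [map_mul] at h2
        have h3 : ∀ q : Po N k, aeval G (aeval (it G i) q) = aeval (it G (i + 1)) q := by
          intro q
          rw [aeval_it_succ']
        simp only [h3] at h2 ⊢
        have h4 : ∑ a : Fin r, aeval (it G (i + 1)) (M a.castSucc) *
            (u (Fin.last r) * aeval G (u a.castSucc) -
              aeval G (u (Fin.last r)) * u a.castSucc) =
            u (Fin.last r) * ∑ a : Fin r, aeval (it G (i + 1)) (M a.castSucc) *
              aeval G (u a.castSucc) -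
            aeval G (u (Fin.last r)) * ∑ a : Fin r, aeval (it G (i + 1)) (M a.castSucc) *
              u a.castSucc := by
          rw [Finset.mul_sum, Finset.mul_sum, ← Finset.sum_sub_distrib]
          refine Finset.sum_congr rfl fun a _ => ?_
          ring
        rw [h4]
        linear_combination u (Fin.last r) * h2 - aeval G (u (Fin.last r)) * h1
    have hconst : ∀ a : Fin r, ∃ s : k, u a.castSucc = C s * u (Fin.last r) := by
      intro a
      by_contra hcon
      push Not at hcon
      exact hN ⟨u a.castSucc, u (Fin.last r), hlast, hcon, by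
        rw [mul_comm, hw a]⟩
    choose s hs using hconst
    have h0 := hrow 0 (Nat.zero_le r)
    have hz : ∀ q : Po N k, aeval (it G 0) q = q := by
      intro q
      rw [it_zero]
      exact aeval_X_left_apply q
    simp only [hz, hs] at h0
    have h1 : u (Fin.last r) * (∑ a : Fin r, s a • M a.castSucc + M (Fin.last r)) = 0 := by
      rw [← h0, mul_add, Finset.mul_sum]
      congr 1
      · refine Finset.sum_congr rfl fun a _ => ?_
        rw [smul_eq_C_mul]
        ring
      · ring
    have h2 : ∑ a : Fin r, s a • M a.castSucc + M (Fin.last r) = 0 :=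
      (mul_eq_zero.1 h1).resolve_left hlast
    rw [Fintype.linearIndependent_iff] at hM
    have h3 := hM (Fin.snoc (α := fun _ => k) s 1) (by
      rw [Fin.sum_univ_castSucc]
      simp only [Fin.snoc_castSucc, Fin.snoc_last, one_smul]
      exact h2) (Fin.last r)
    rw [Fin.snoc_last] at h3
    exact one_ne_zero h3

theorem pf_RNK : T_RNK := by
  classical
  intro N k _ G W hG hN hW
  let b := Module.finBasis k W
  have hli : LinearIndependent k (fun a => ((b a : W) : Po N k)) :=
    b.linearIndependent.map' W.subtype W.ker_subtype
  refine ⟨(cas G fun a => ((b a : W) : Po N k)).det, cas_ne G hG hN _ _ hli, ?_⟩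
  intro z hz S hS hvan
  have hdet : ((cas G fun a => ((b a : W) : Po N k)).map (eval z)).det ≠ 0 := by
    rw [← RingHom.mapMatrix_apply, ← RingHom.map_det]
    exact hz
  have hrep : S = ∑ a, b.repr ⟨S, hS⟩ a • ((b a : W) : Po N k) := by
    have h1 := b.sum_repr ⟨S, hS⟩
    have h2 := congrArg (Subtype.val) h1
    rw [Submodule.coe_sum] at h2
    exact h2.symm
  have hzero : (fun a => b.repr ⟨S, hS⟩ a) = 0 := by
    by_contra hcon
    apply hdet
    rw [← Matrix.exists_mulVec_eq_zero_iff]
    refine ⟨_, hcon, ?_⟩
    funext i
    have h1 := mem_van.1 hvan i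
    rw [hrep, map_sum] at h1
    unfold Matrix.mulVec dotProduct
    simp only [Matrix.map_apply, cas, Matrix.of_apply, Pi.zero_apply]
    rw [← h1]
    refine Finset.sum_congr rfl fun a _ => ?_
    rw [eval_aeval, smul_eval, pmap_it, mul_comm]
  rw [hrep]
  apply Finset.sum_eq_zero
  intro a _
  have h1 := congrFun hzero a
  simp only [Pi.zero_apply] at h1
  rw [h1, zero_smul]

end Pool.Agent.H54.FFM
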