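import Pool.Agent.H55.FFM.TE
import Pool.Agent.H18.HIT.Basic

/-!
# Chain rule, traces, minimal polynomials, automorphisms (rows CHR, TRE, MIN, AUT)
-/

set_option autoImplicit false

open MvPolynomial
open Pool.Agent.H12.ZD (pmap v O Res DenseOrbit NoInv)
open Pool.Agent.H18.HIT
open Pool.Agent.H55.FFM

namespace Pool.Agent.H54.FFM

theorem chr_chain {N : ℕ} {R : Type} [CommRing R] (g : Tup N R) (q : Po N R) (j : Fin N) :
    pderiv j (aeval g q) = ∑ l, aeval g (pderiv l q) * pderiv j (g l) := by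
  classical
  induction q using MvPolynomial.induction_on with
  | C a =>
    have h1 : aeval g (C a : Po N R) = C a := by
      rw [← algebraMap_eq, AlgHom.commutes]
    rw [h1, pderiv_C]
    symm
    apply Finset.sum_eq_zero
    intro l _
    rw [pderiv_C, map_zero, zero_mul]
  | add p q hp hq =>
    rw [map_add, map_add, hp, hq, ← Finset.sum_add_distrib]
    refine Finset.sum_congr rfl fun l _ => ?_
    rw [map_add, map_add, add_mul]
  | mul_X p n hp =>
    rw [map_mul, aeval_X, Derivation.leibniz, hp, smul_eq_mul, smul_eq_mul]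
    have h1 : ∀ l, aeval g (pderiv l (p * X n)) * pderiv j (g l) =
        aeval g p * (aeval g (Pi.single (M := fun _ : Fin N => Po N R) l 1 n) *
          pderiv j (g l)) +
          g n * (aeval g (pderiv l p) * pderiv j (g l)) := by
      intro l
      rw [Derivation.leibniz, smul_eq_mul, smul_eq_mul, pderiv_X, map_add, map_mul, map_mul,
        aeval_X]
      ring
    rw [Finset.sum_congr rfl fun l _ => h1 l, Finset.sum_add_distrib, ← Finset.mul_sum,
      ← Finset.mul_sum]
    congr 2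
    rw [Finset.sum_eq_single n]
    · rw [Pi.single_eq_same, map_one, one_mul]
    · intro l _ hl
      rw [Pi.single_eq_of_ne' hl, map_zero, zero_mul]
    · intro h
      exact absurd (Finset.mem_univ _) h

theorem pf_CHR : T_CHR := by
  classical
  intro N R _ f g
  unfold jac
  rw [AlgHom.map_det, ← Matrix.det_mul]
  congr 1
  refine Matrix.ext fun i j => ?_
  rw [Matrix.mul_apply]
  simp only [Matrix.of_apply]
  exact chr_chain g (f i) j

theorem tre_gen (K L Ω : Type) [Field K] [Field L] [Field Ω] [IsAlgClosed Ω] [CharZero K]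
    [Algebra K L] [Algebra K Ω] [FiniteDimensional K L] : ∃ s : Finset (L →+* Ω),
      (∀ ρ, ρ ∈ s ↔ ∀ a : K, ρ (algebraMap K L a) = algebraMap K Ω a) ∧
      ∀ a : L, algebraMap K Ω (Algebra.trace K L a) = ∑ ρ ∈ s, ρ a := by
  classical
  refine ⟨(Finset.univ : Finset (L →ₐ[K] Ω)).image fun σ => σ.toRingHom, ?_, ?_⟩
  · intro ρ
    rw [Finset.mem_image]
    constructor
    · rintro ⟨σ, -, rfl⟩ a
      exact σ.commutes a
    · intro h
      exact ⟨{ ρ with commutes' := h }, Finset.mem_univ _, rfl⟩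
  · intro a
    rw [trace_eq_sum_embeddings, Finset.sum_image]
    · rfl
    · intro σ _ σ' _ h
      exact AlgHom.coe_ringHom_injective h

theorem fin_gen (K L : Type) [Field K] [Field L] [Algebra K L] (h : 1 ≤ Module.finrank K L) :
    FiniteDimensional K L := Module.finite_of_finrank_pos h

theorem sur_gen (K L : Type) [Field K] [Field L] [Algebra K L] (h : Module.finrank K L = 1) :
    Function.Surjective (algebraMap K L) :=
  Algebra.surjective_algebraMap_iff.2 (Subalgebra.bot_eq_top_of_finrank_eq_one h).symm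

theorem pf_TRE : T_TRE := by
  intro F Ω _ _ _ _ _ τ hτ
  have hfin := @fin_gen F F _ _ τ.toAlgebra hτ
  exact @tre_gen F F Ω _ _ _ _ _ τ.toAlgebra ((algebraMap F Ω).comp τ).toAlgebra hfin

theorem fr_mul {N : ℕ} {k : Type} [Field k] (a b : Po N k) : fr (a * b) = fr a * fr b :=
  map_mul (algebraMap (Po N k) (KN N k)) a b

theorem fr_pow {N : ℕ} {k : Type} [Field k] (a : Po N k) (n : ℕ) : fr (a ^ n) = fr a ^ n :=
  map_pow (algebraMap (Po N k) (KN N k)) a n

theorem pf_MIN : T_MIN := by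
  classical
  intro N k _ _ G τ β hinj hE hdeh hβ hL x
  obtain ⟨n₀, Q, hQm, hQ⟩ := hL x
  obtain ⟨b, hb⟩ : ∃ b : Po N k, b = β ^ n₀ := ⟨_, rfl⟩
  have hb0 : b ≠ 0 := by rw [hb]; exact pow_ne_zero _ hβ
  have hfb : fr b ≠ 0 := by
    rw [Ne, IsFractionRing.to_map_eq_zero_iff]
    exact hb0
  have hcomp : (τ : KN N k →+* KN N k).comp (algebraMap (Po N k) (KN N k)) =
      (algebraMap (Po N k) (KN N k)).comp (aeval G : Po N k →ₐ[k] Po N k).toRingHom :=
    RingHom.ext hE
  -- the element `y`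
  obtain ⟨y, hy⟩ : ∃ y : Po N k, y = aeval G b * x := ⟨_, rfl⟩
  have hQ' : Polynomial.eval₂ (aeval G : Po N k →ₐ[k] Po N k).toRingHom y Q = 0 := by
    rw [hy, hb, map_pow]
    exact hQ
  have hQK : Polynomial.eval₂ (τ : KN N k →+* KN N k) (fr y)
      (Q.map (algebraMap (Po N k) (KN N k))) = 0 := by
    rw [Polynomial.eval₂_map, hcomp, ← Polynomial.hom_eval₂, hQ', map_zero]
  -- the minimal polynomial of `y`
  obtain ⟨m', hm'm, hm'i, hm'r, hm'd⟩ : ∃ m' : Polynomial (KN N k), m'.Monic ∧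
      Irreducible m' ∧ Polynomial.eval₂ (τ : KN N k →+* KN N k) (fr y) m' = 0 ∧
      m' ∣ Q.map (algebraMap (Po N k) (KN N k)) := by
    letI : Algebra (KN N k) (KN N k) := (τ : KN N k →+* KN N k).toAlgebra
    have hint : @IsIntegral (KN N k) (KN N k) _ _ (τ : KN N k →+* KN N k).toAlgebra (fr y) :=
      ⟨Q.map (algebraMap (Po N k) (KN N k)), hQm.map _, hQK⟩
    exact ⟨@minpoly (KN N k) (KN N k) _ _ (τ : KN N k →+* KN N k).toAlgebra (fr y),
      minpoly.monic hint, minpoly.irreducible hint, minpoly.aeval _ _,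
      minpoly.dvd _ _ hQK⟩
  obtain ⟨P', hP'⟩ := IsIntegrallyClosed.eq_map_mul_C_of_dvd (KN N k) hQm hm'd
  rw [hm'm.leadingCoeff, Polynomial.C_1, mul_one] at hP'
  -- scaling
  obtain ⟨e, he⟩ : ∃ e, e = m'.natDegree := ⟨_, rfl⟩
  haveI : Invertible (fr b) := invertibleOfNonzero hfb
  set m₁ : Polynomial (KN N k) := m'.comp (Polynomial.C (fr b) * Polynomial.X) with hm₁
  have hm₁i : Irreducible m₁ := by
    have h1 := (MulEquiv.irreducible_iff (Polynomial.algEquivCMulXAddC (fr b) 0)).2 hm'i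
    rw [Polynomial.algEquivCMulXAddC_apply] at h1
    have h2 : Polynomial.aeval (Polynomial.C (fr b) * Polynomial.X + Polynomial.C 0) m' =
        m₁ := by
      rw [hm₁, Polynomial.C_0, add_zero, Polynomial.comp_eq_aeval]
    rwa [h2] at h1
  have hlead : m₁.leadingCoeff = fr b ^ e := by
    rw [hm₁, Polynomial.leadingCoeff_comp, hm'm.leadingCoeff, one_mul, ← he]
    · congr 1
      rw [Polynomial.leadingCoeff_mul, Polynomial.leadingCoeff_C, Polynomial.leadingCoeff_X,
        mul_one]
    · rw [Polynomial.natDegree_C_mul_X _ hfb]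
      exact one_ne_zero
  have hpe : fr b ^ e ≠ 0 := pow_ne_zero _ hfb
  refine ⟨Polynomial.C (fr b ^ e)⁻¹ * m₁, n₀ * e, P'.comp (Polynomial.C b * Polynomial.X),
    ?_, ?_, ?_, ?_, ?_⟩
  · rw [Polynomial.Monic, Polynomial.leadingCoeff_mul, Polynomial.leadingCoeff_C, hlead,
      inv_mul_cancel₀ hpe]
  · have hu : IsUnit (Polynomial.C (fr b ^ e)⁻¹ : Polynomial (KN N k)) :=
      Polynomial.isUnit_C.2 (inv_ne_zero hpe).isUnit
    exact (irreducible_isUnit_mul hu).2 hm₁i
  · rw [Polynomial.eval_map, Polynomial.eval₂_mul, hm₁, Polynomial.eval₂_comp,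
      Polynomial.eval₂_mul, Polynomial.eval₂_C, Polynomial.eval₂_X]
    have h1 : (τ : KN N k →+* KN N k) (fr b) * fr x = fr y := by
      have h2 : (τ : KN N k →+* KN N k) (fr b) = fr (aeval G b) := hE b
      rw [h2, hy, fr_mul]
    rw [Polynomial.eval₂_C, h1, hm'r, mul_zero]
  · have h1 : Polynomial.eval₂ (aeval G : Po N k →ₐ[k] Po N k).toRingHom y P' = 0 := by
      apply IsFractionRing.injective (Po N k) (KN N k)
      rw [map_zero, Polynomial.hom_eval₂, ← hcomp, ← Polynomial.eval₂_map, hP']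
      exact hm'r
    unfold ev2
    rw [Polynomial.eval₂_comp, Polynomial.eval₂_mul, Polynomial.eval₂_C, Polynomial.eval₂_X]
    rw [hy] at h1
    exact h1
  · rw [Polynomial.map_comp, hP', Polynomial.map_mul, Polynomial.map_C, Polynomial.map_X,
      ← mul_assoc, ← Polynomial.C_mul]
    have h1 : fr β ^ (n₀ * e) = fr b ^ e := by
      rw [hb, fr_pow, pow_mul]
    rw [h1, mul_inv_cancel₀ hpe, Polynomial.C_1, one_mul]

theorem aut_unit {N : ℕ} {k : Type} [Field k] {q : Po N k} (h : IsUnit q) :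
    ∃ c : k, c ≠ 0 ∧ q = C c := by
  obtain ⟨c, hc, h1⟩ := MvPolynomial.isUnit_iff_eq_C_of_isReduced.1 h
  exact ⟨c, hc.ne_zero, h1⟩

theorem pf_AUT (hCHR : T_CHR) : T_AUT := by
  classical
  intro N k _ _ G τ hinj hE hdeh hZ
  obtain ⟨m, a, r, har, hr⟩ := hZ
  have hfr : Function.Injective (algebraMap (Po N k) (KN N k)) := IsFractionRing.injective _ _
  have hsur : Function.Surjective (τ : KN N k →+* KN N k) :=
    @sur_gen (KN N k) (KN N k) _ _ (τ : KN N k →+* KN N k).toAlgebra hdeh
  have hcomp : (τ : KN N k →+* KN N k).comp (algebraMap (Po N k) (KN N k)) =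
      (algebraMap (Po N k) (KN N k)).comp (aeval G : Po N k →ₐ[k] Po N k).toRingHom :=
    RingHom.ext hE
  have hconst : ∀ c : k, aeval G (C c : Po N k) = C c := by
    intro c
    rw [← algebraMap_eq, AlgHom.commutes]
  -- integral elements
  have h1 : ∀ y : Po N k, Itg G y → ∃ b : Po N k, y = aeval G b := by
    rintro y ⟨Q, hQm, hQ⟩
    obtain ⟨γ, hγ⟩ := hsur (fr y)
    have hγ0 : Polynomial.eval₂ (algebraMap (Po N k) (KN N k)) γ Q = 0 := by
      apply (τ : KN N k →+* KN N k).injective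
      rw [map_zero, Polynomial.hom_eval₂, hcomp, hγ, ← Polynomial.hom_eval₂, hQ, map_zero]
    obtain ⟨b, hb⟩ := IsIntegrallyClosed.algebraMap_eq_of_integral (R := Po N k)
      (K := KN N k) ⟨Q, hQm, hγ0⟩
    refine ⟨b, hfr ?_⟩
    show fr y = fr (aeval G b)
    rw [← hγ, ← hb]
    exact hE b
  have h1r : ∀ i, ∃ b : Po N k, r i = aeval G b := fun i => h1 _ (hr i).1
  choose ρ hρ using h1r
  -- all elements
  have h2 : ∀ y : Po N k, ∃ b : Po N k, y = aeval G b := by
    intro y
    obtain ⟨γ, hγ⟩ := hsur (fr y)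
    obtain ⟨u, w, huw, hγ'⟩ := IsFractionRing.exists_reduced_fraction (A := Po N k) γ
    have hw0 : (w : Po N k) ≠ 0 := nonZeroDivisors.ne_zero w.2
    have hrel : y * aeval G (w : Po N k) = aeval G u := by
      apply hfr
      have h3 : γ * fr (w : Po N k) = fr u := by
        rw [← hγ']
        exact IsLocalization.mk'_spec _ _ _
      have h4 := congrArg (τ : KN N k →+* KN N k) h3
      rw [map_mul, hγ] at h4
      have h5 : ∀ q : Po N k, (τ : KN N k →+* KN N k) (fr q) = fr (aeval G q) := hE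
      rw [h5, h5] at h4
      rw [← fr_mul] at h4
      exact h4
    have hdvd : ∀ i, ∃ n, (w : Po N k) ∣ ρ i ^ n := by
      intro i
      obtain ⟨n, hn⟩ := (hr i).2 y
      obtain ⟨b, hb⟩ := h1 _ hn
      refine ⟨n, ?_⟩
      have h3 : ρ i ^ n * u = b * w := by
        apply hinj
        rw [map_mul, map_mul, map_pow, ← hρ i, ← hb, ← hrel]
        ring
      have h4 : (w : Po N k) ∣ ρ i ^ n * u := ⟨b, by rw [h3, mul_comm]⟩
      exact huw.symm.dvd_of_dvd_mul_right h4
    have hwu : IsUnit (w : Po N k) := by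
      by_contra hcon
      obtain ⟨q, hq, hqw⟩ := WfDvdMonoid.exists_irreducible_factor hcon hw0
      have hqr : ∀ i, q ∣ ρ i := by
        intro i
        obtain ⟨n, hn⟩ := hdvd i
        exact hq.prime.dvd_of_dvd_pow (hqw.trans hn)
      have hq1 : aeval G q ∣ (1 : Po N k) := by
        rw [← har]
        apply Finset.dvd_sum
        intro i _
        apply Dvd.dvd.mul_left
        rw [hρ i]
        exact map_dvd _ (hqr i)
      obtain ⟨c, hc, hqc⟩ := aut_unit (isUnit_of_dvd_one hq1)
      have h3 : q = C c := by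
        apply hinj
        rw [hqc, hconst]
      apply hq.not_isUnit
      rw [h3]
      exact (isUnit_iff_ne_zero.2 hc).map C
    obtain ⟨w', hw'⟩ := hwu.exists_right_inv
    refine ⟨u * w', ?_⟩
    rw [map_mul, ← hrel, mul_assoc, ← map_mul, hw', map_one, mul_one]
  have h3r : ∀ i : Fin N, ∃ b : Po N k, (X i : Po N k) = aeval G b := fun i => h2 (X i)
  choose H hH using h3r
  have hcompH : comp H G = fun i => X i := by
    funext i
    exact (hH i).symm
  have hjac := hCHR N k H G
  rw [hcompH] at hjac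
  have hjX : jac (fun i => X i : Tup N k) = 1 := by
    unfold jac
    rw [← Matrix.det_one (n := Fin N) (R := Po N k)]
    congr 1
    refine Matrix.ext fun i j => ?_
    rw [Matrix.of_apply, pderiv_X, Matrix.one_apply]
    by_cases hij : i = j
    · subst hij
      rw [if_pos rfl, Pi.single_eq_same]
    · rw [if_neg hij, Pi.single_eq_of_ne hij]
  rw [hjX] at hjac
  obtain ⟨c, -, hc⟩ := aut_unit (isUnit_of_dvd_one (Dvd.intro_left _ hjac.symm))
  exact ⟨c, hc⟩

end Pool.Agent.H54.FFM
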