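import Pool.Agent.H55.FFM.TE

/-!
# Euler's formula (row EUL) and the determinant of the difference quotients (row JCI)
-/

set_option autoImplicit false

open MvPolynomial
open Pool.Agent.H12.ZD (pmap v O Res DenseOrbit NoInv)
open Pool.Agent.H18.HIT
open Pool.Agent.H55.FFM

namespace Pool.Agent.H54.FFM

theorem pf_EUL : T_EUL := by
  classical
  intro L Ω _ _ _ _ B P hm hB hsep s hs g
  obtain ⟨d, hd⟩ : ∃ d, d = P.natDegree := ⟨_, rfl⟩
  -- the polynomial over `Ω`
  set Q := P.map (algebraMap L Ω) with hQ
  have hQm : Q.Monic := hm.map _
  have hQs : Q.Splits := IsAlgClosed.splits Q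
  have hroots : Q.roots.toFinset = s := by
    ext y
    rw [Multiset.mem_toFinset, Polynomial.mem_roots hQm.ne_zero, Polynomial.IsRoot.def, hs y,
      hQ, Polynomial.eval_map, Polynomial.aeval_def]
  have hnd : Q.roots.Nodup := Polynomial.nodup_roots (hsep.map)
  have hQn : Q = Lagrange.nodal s (id : Ω → Ω) := by
    have h1 := hQs.eq_prod_roots_of_monic hQm
    unfold Lagrange.nodal
    rw [h1, ← hroots]
    have h2 : Q.roots.toFinset.val = Q.roots := by
      rw [Multiset.toFinset_val, hnd.dedup]
    rw [Finset.prod, h2]
    rfl
  have hcard : s.card = d := by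
    have h1 : Q.natDegree = s.card := by
      rw [hQn, Lagrange.natDegree_nodal]
    rw [← h1, hQ, hm.natDegree_map, hd]
  have hder : ∀ y ∈ s, Polynomial.aeval y (Polynomial.derivative P) =
      ∏ z ∈ s.erase y, (y - z) := by
    intro y hy
    have h1 : Polynomial.aeval y (Polynomial.derivative P) =
        Polynomial.eval y (Polynomial.derivative Q) := by
      rw [hQ, Polynomial.derivative_map, Polynomial.eval_map, Polynomial.aeval_def]
    rw [h1, hQn]
    have h2 := Lagrange.eval_nodal_derivative_eval_node_eq (v := (id : Ω → Ω)) hy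
    simp only [id] at h2
    rw [h2, Lagrange.eval_nodal]
    rfl
  induction g using Nat.strong_induction_on with
  | _ g ih =>
    by_cases hg : g < d
    · have hdeg : (Polynomial.X ^ g : Polynomial Ω).degree < s.card := by
        rw [Polynomial.degree_X_pow, hcard]
        exact_mod_cast hg
      have h1 := Lagrange.coeff_eq_sum (s := s) (v := (id : Ω → Ω))
        (Set.injOn_id _) hdeg
      have h2 : ∑ y ∈ s, y ^ g / Polynomial.aeval y (Polynomial.derivative P) =
          (Polynomial.X ^ g : Polynomial Ω).coeff (s.card - 1) := by
        rw [h1]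
        refine Finset.sum_congr rfl fun y hy => ?_
        rw [hder y hy, Polynomial.eval_pow, Polynomial.eval_X]
        rfl
      rw [h2, Polynomial.coeff_X_pow]
      split_ifs
      · exact ⟨1, B.one_mem, (map_one _).symm⟩
      · exact ⟨0, B.zero_mem, (map_zero _).symm⟩
    · have hg' : d ≤ g := not_lt.1 hg
      choose! b hb hbs using ih
      refine ⟨- ∑ i ∈ Finset.range d, P.coeff i * b (g - d + i), ?_, ?_⟩
      · refine B.neg_mem (B.sum_mem fun i hi => B.mul_mem (hB i) (hb _ ?_))
        have := Finset.mem_range.1 hi
        omega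
      · rw [map_neg, map_sum]
        have h1 : ∀ i ∈ Finset.range d, algebraMap L Ω (P.coeff i * b (g - d + i)) =
            ∑ y ∈ s, algebraMap L Ω (P.coeff i) * y ^ (g - d + i) /
              Polynomial.aeval y (Polynomial.derivative P) := by
          intro i hi
          have h2 : g - d + i < g := by
            have := Finset.mem_range.1 hi
            omega
          rw [map_mul, ← hbs _ h2, Finset.mul_sum]
          refine Finset.sum_congr rfl fun y _ => ?_
          ring
        rw [Finset.sum_congr rfl h1, Finset.sum_comm, ← Finset.sum_neg_distrib]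
        refine Finset.sum_congr rfl fun y hy => ?_
        rw [← Finset.sum_div, ← neg_div]
        congr 1
        have h3 : Polynomial.aeval y P = 0 := (hs y).1 hy
        rw [Polynomial.aeval_eq_sum_range, ← hd, Finset.sum_range_succ] at h3
        have h4 : P.coeff d = 1 := by rw [hd]; exact hm
        rw [h4, one_smul] at h3
        have h5 : y ^ d = - ∑ i ∈ Finset.range d, P.coeff i • y ^ i := by
          linear_combination h3
        calc y ^ g = y ^ (g - d) * y ^ d := by
              rw [← pow_add]
              congr 1
              omega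
          _ = _ := by
              rw [h5, mul_neg, Finset.mul_sum]
              congr 1
              refine Finset.sum_congr rfl fun i _ => ?_
              rw [Algebra.smul_def, pow_add]
              ring

/-! ## The difference quotients -/

section ev

variable {N : ℕ} {k Ω : Type} [Field k] [Field Ω] [Algebra k Ω] (a y : Fin N → Ω)

/-- the evaluation as a ring homomorphism -/
noncomputable def jciE : PP N k →+* Ω := eval₂Hom (aeval a : Po N k →ₐ[k] Ω).toRingHom y

theorem jciE_apply (q : PP N k) : jciE a y q = ev3 a y q := rfl

theorem jciE_up (q : Po N k) : jciE a y (up q) = aeval y q := by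
  show eval₂ (aeval a : Po N k →ₐ[k] Ω).toRingHom y (map (algebraMap k (Po N k)) q) = _
  rw [eval₂_map, aeval_def]
  congr 1
  ext c
  simp

theorem jciE_C (p : Po N k) : jciE a y (C p) = aeval a p := by
  show eval₂ (aeval a : Po N k →ₐ[k] Ω).toRingHom y (C p) = _
  rw [eval₂_C]
  rfl

theorem up_X (j : Fin N) : up (X j : Po N k) = X j := by
  unfold up
  rw [map_X]

theorem jciE_aeval (j : Fin N) (P : Polynomial (Po N k)) :
    jciE a y (Polynomial.aeval (X j : PP N k) P) = ev1 a (y j) P := by
  rw [Polynomial.aeval_def, Polynomial.hom_eval₂]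
  unfold ev1
  congr 1
  · refine RingHom.ext fun p => ?_
    exact jciE_C a y p
  · show eval₂ (aeval a : Po N k →ₐ[k] Ω).toRingHom y (X j) = _
    rw [eval₂_X]

end ev

theorem pf_JCI : T_JCI := by
  classical
  intro N k Ω _ _ _ G P c hc a y
  have hc' : ∀ j, Polynomial.aeval (X j : PP N k) (P j) =
      ∑ i, c j i * (up (G i) - C (X i)) := by
    intro j
    rw [← up_X j]
    exact hc j
  constructor
  · intro hG
    have hmul : (Matrix.of fun j i => ev3 a y (c j i)) *
        (Matrix.of fun i l => aeval y (pderiv l (G i))) =
        Matrix.diagonal fun j => ev1 a (y j) (Polynomial.derivative (P j)) := by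
      ext j l
      rw [Matrix.mul_apply, Matrix.diagonal_apply]
      simp only [Matrix.of_apply]
      have h1 := congrArg (fun q => jciE a y (pderiv l q)) (hc' j)
      have h2 : jciE a y (pderiv l (Polynomial.aeval (X j : PP N k) (P j))) =
          if j = l then ev1 a (y j) (Polynomial.derivative (P j)) else 0 := by
        rw [Derivation.map_aeval, pderiv_X, smul_eq_mul, map_mul, jciE_aeval]
        by_cases hjl : j = l
        · subst hjl
          rw [if_pos rfl, Pi.single_eq_same, map_one, mul_one]
        · rw [if_neg hjl, Pi.single_eq_of_ne hjl, map_zero, mul_zero]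
      have h3 : jciE a y (pderiv l (∑ i, c j i * (up (G i) - C (X i)))) =
          ∑ i, ev3 a y (c j i) * aeval y (pderiv l (G i)) := by
        rw [map_sum, map_sum]
        refine Finset.sum_congr rfl fun i _ => ?_
        have h4 : pderiv l (up (G i)) = up (pderiv l (G i)) := pderiv_map
        rw [Derivation.leibniz, map_sub, pderiv_C, sub_zero, h4, smul_eq_mul, smul_eq_mul,
          map_add, map_mul, map_mul, map_sub, jciE_up, jciE_up, jciE_C, aeval_X, hG i,
          sub_self, zero_mul, add_zero]
        rfl
      rw [h2, h3] at h1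
      exact h1.symm
    have hdet := congrArg Matrix.det hmul
    rw [Matrix.det_mul, Matrix.det_diagonal] at hdet
    rw [← hdet]
    congr 1
    unfold jac
    rw [AlgHom.map_det]
    congr 1
  · rintro h1 ⟨i₀, hi₀⟩
    rw [← Matrix.exists_mulVec_eq_zero_iff]
    refine ⟨fun i => aeval y (G i) - a i, ?_, ?_⟩
    · intro h0
      exact hi₀ (sub_eq_zero.1 (congrFun h0 i₀))
    · funext j
      have h2 := congrArg (jciE a y) (hc' j)
      rw [jciE_aeval, h1 j, map_sum] at h2
      rw [Pi.zero_apply, h2]
      unfold Matrix.mulVec dotProduct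
      refine Finset.sum_congr rfl fun i _ => ?_
      rw [map_mul, map_sub, jciE_up, jciE_C, aeval_X]
      rfl

end Pool.Agent.H54.FFM
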