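import Pool.Agent.H55.FFM.TD

/-!
# Evaluation of polynomials in two variables (row EVD)
-/

set_option autoImplicit false

open MvPolynomial
open Pool.Agent.H12.ZD (pmap v O Res DenseOrbit NoInv)
open Pool.Agent.H18.HIT
open Pool.Agent.H55.FFM

namespace Pool.Agent.H54.FFM

theorem evd_deg1 {N : ℕ} {k : Type} [Field k] (P : Po N k) (p : Polynomial k) :
    (Polynomial.aeval P p).totalDegree ≤ p.natDegree * P.totalDegree := by
  rw [Polynomial.aeval_eq_sum_range]
  refine (totalDegree_finset_sum _ _).trans (Finset.sup_le fun i hi => ?_)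
  refine (totalDegree_smul_le _ _).trans ((totalDegree_pow _ _).trans ?_)
  exact Nat.mul_le_mul_right _ (Nat.lt_succ_iff.1 (Finset.mem_range.1 hi))

/-- the polynomial in two variables -/
noncomputable def evdT {k : Type} [Field k] : Polynomial (Polynomial k) →+*
    MvPolynomial (Fin 2) k :=
  Polynomial.eval₂RingHom (Polynomial.aeval (X 0 : MvPolynomial (Fin 2) k)).toRingHom (X 1)

theorem evdT_eval {k F : Type} [Field k] [CommRing F] [Algebra k F] (a b : F)
    (Ξ : Polynomial (Polynomial k)) : aeval ![a, b] (evdT Ξ) = evX a b Ξ := by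
  unfold evdT evX
  rw [Polynomial.coe_eval₂RingHom]
  have h := Polynomial.hom_eval₂ Ξ (Polynomial.aeval (X 0 : MvPolynomial (Fin 2) k)).toRingHom
    (aeval ![a, b] : MvPolynomial (Fin 2) k →ₐ[k] F).toRingHom (X 1)
  have h1 : (aeval ![a, b] : MvPolynomial (Fin 2) k →ₐ[k] F).toRingHom (X 1) = b := by
    show aeval ![a, b] (X 1) = b
    rw [aeval_X]
    rfl
  have h2 : (aeval ![a, b] : MvPolynomial (Fin 2) k →ₐ[k] F).toRingHom.comp
      (Polynomial.aeval (X 0 : MvPolynomial (Fin 2) k)).toRingHom =
      (Polynomial.aeval a : Polynomial k →ₐ[k] F).toRingHom := by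
    refine RingHom.ext fun p => ?_
    show aeval ![a, b] (Polynomial.aeval (X 0 : MvPolynomial (Fin 2) k) p) =
      Polynomial.aeval a p
    have h3 := Polynomial.map_aeval_eq_aeval_map (R := k) (S := MvPolynomial (Fin 2) k)
      (φ := RingHom.id k) (ψ := (aeval ![a, b] : MvPolynomial (Fin 2) k →ₐ[k] F).toRingHom)
      (by
        refine RingHom.ext fun c => ?_
        show algebraMap k F c = aeval ![a, b] (algebraMap k (MvPolynomial (Fin 2) k) c)
        rw [AlgHom.commutes]) p (X 0)
    rw [Polynomial.map_id] at h3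
    refine h3.trans ?_
    congr 2
    show aeval ![a, b] (X 0) = a
    rw [aeval_X]
    rfl
  rw [h1, h2] at h
  exact h

theorem evdT_ne {k : Type} [Field k] {Ξ : Polynomial (Polynomial k)} (h : Ξ ≠ 0) :
    evdT Ξ ≠ 0 := by
  intro h0
  -- evaluate at the generic point of `k[X][Y]`
  have h1 := evdT_eval (F := Polynomial (Polynomial k)) (Polynomial.C Polynomial.X)
    Polynomial.X Ξ
  rw [h0, map_zero] at h1
  apply h
  unfold evX at h1
  have h2 : (Polynomial.aeval (Polynomial.C Polynomial.X : Polynomial (Polynomial k)) :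
      Polynomial k →ₐ[k] Polynomial (Polynomial k)).toRingHom = Polynomial.C := by
    refine Polynomial.ringHom_ext (fun c => ?_) ?_
    · show Polynomial.aeval _ (Polynomial.C c) = _
      rw [Polynomial.aeval_C]
      rfl
    · show Polynomial.aeval _ Polynomial.X = _
      rw [Polynomial.aeval_X]
  rw [h2, Polynomial.eval₂_C_X] at h1
  exact h1.symm

theorem pf_EVD : T_EVD := by
  intro N k _ P Q Ξ hΞ
  constructor
  · unfold evX
    rw [Polynomial.eval₂_eq_sum_range]
    refine (totalDegree_finset_sum _ _).trans (Finset.sup_le fun i hi => ?_)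
    have hi' : i ≤ Ξ.natDegree := Nat.lt_succ_iff.1 (Finset.mem_range.1 hi)
    refine (totalDegree_mul _ _).trans (add_le_add ?_ ?_)
    · refine (evd_deg1 P _).trans (Nat.mul_le_mul_right _ ?_)
      by_cases h0 : Ξ.coeff i = 0
      · rw [h0, Polynomial.natDegree_zero]
        exact Nat.zero_le _
      · exact Finset.le_sup (f := fun i => (Ξ.coeff i).natDegree)
          (Polynomial.mem_support_iff.2 h0)
    · exact (totalDegree_pow _ _).trans (Nat.mul_le_mul_right _ hi')
  · intro hind h0
    have h1 : aeval ![fr P, fr Q] (evdT Ξ) = fr (evX P Q Ξ) := by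
      have h2 := evdT_eval P Q Ξ
      have h3 := congrArg (algebraMap (Po N k) (KN N k)) h2
      rw [show fr (evX P Q Ξ) = algebraMap (Po N k) (KN N k) (evX P Q Ξ) from rfl, ← h3]
      have h4 : (aeval ![fr P, fr Q] : MvPolynomial (Fin 2) k →ₐ[k] KN N k) =
          (IsScalarTower.toAlgHom k (Po N k) (KN N k)).comp (aeval ![P, Q]) := by
        apply algHom_ext
        intro i
        rw [aeval_X, AlgHom.comp_apply, aeval_X]
        fin_cases i <;> rfl
      rw [h4]
      rfl
    have h5 : fr (0 : Po N k) = 0 := map_zero (algebraMap (Po N k) (KN N k))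
    rw [h0, h5] at h1
    rw [algebraicIndependent_iff_injective_aeval, injective_iff_map_eq_zero] at hind
    exact evdT_ne hΞ (hind _ h1)

end Pool.Agent.H54.FFM
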